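import Pool.Agent.X317.Lex.Final

/-!
# Squarefree lexsegment ideals of depth `q - 1`

Squarefree monomials in `x_1, …, x_n` are given by their sets of variables, subsets of `Fin n`
(`x_(j+1)` is the variable of index `j : Fin n`). `Gt A B` says that the monomial of `A` is larger than
the monomial of `B` in the lexicographic order: the first index where the exponents differ belongs to
`A`. `Ge A B` is `A = B` or `Gt A B`. `sqIdeal k L` is the ideal of `S = k[x_1, …, x_n]` generated by
the monomials `∏_{i ∈ G} x_i` with `L G`. `w0 u` is the monomial `x_(i_2 - 1) ⋯ x_(i_q - 1) x_n` for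
`u = x_1 x_(i_2) ⋯ x_(i_q)`. `depth I` is the depth of `S/I` with respect to `(x_1, …, x_n)`: the
supremum of the lengths of the `S/I`-regular sequences (`RingTheory.Sequence.IsRegular`) with entries in
`(x_1, …, x_n)`.

**Theorem.** Let `q ≥ 2`, let `u`, `v` be squarefree monomials of degree `q` with `x_1 ∣ u` and
`x_1 ∤ v`, and let `I` be the ideal generated by the squarefree monomials `w` of degree `q` with
`u ≥ w ≥ v`. Then `depth(S/I) = q - 1` if and only if `w_0 ≥ v`.

This is the positive answer to Q1, for every field.
-/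

set_option autoImplicit false
set_option linter.all false

open Pool.Agent.X317.Lex

namespace Pool.Agent.Results.MP_805877_ag.DepthQMinusOne

theorem result (k : Type*) [Field k] (n q : ℕ) (hq : 2 ≤ q) (u v : Finset (Fin n))
    (hu : u.card = q) (hv : v.card = q) (hu1 : ∃ a ∈ u, (a : ℕ) = 0)
    (hv1 : ∀ a ∈ v, (a : ℕ) ≠ 0) :
    depth (sqIdeal k fun w => w.card = q ∧ Ge u w ∧ Ge w v) = ((q - 1 : ℕ) : ℕ∞) ↔
      Ge (w0 u) v :=
  main hq hu hv hu1

end Pool.Agent.Results.MP_805877_ag.DepthQMinusOne
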